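import Pool.Agent.R515.RM.Law

/-!
# Non-singularity of the root-evaluation matrix for periodic random-walk maxima
-/

open MeasureTheory ProbabilityTheory Filter Topology Asymptotics

namespace Pool.Agent.Results.MP_432bca_pr.NonSingular

variable {Ω : Type*} [MeasurableSpace Ω] {n : ℕ}

/-- The generating function `G_Y(s) = ∑_{k ∈ ℤ} s^k P(Y = k)`. -/
noncomputable def G (P : Measure Ω) (Y : Ω → ℤ) (s : ℂ) : ℂ :=
  ∑' k : ℤ, s ^ k * (P.real {ω | Y ω = k} : ℂ)

/-- The distribution function `F_Y(k) = P(Y ≤ k)`. -/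
noncomputable def F (P : Measure Ω) (Y : Ω → ℤ) (k : ℤ) : ℝ := P.real {ω | Y ω ≤ k}

/-- The weights `w_j`. The variables `X_1, …, X_N` of the problem (`N = n + 1`) are indexed by
`Fin (n + 1)`, so that the last index plays the role of `N`:
`w_N(s) = s^{m_N}` and `w_j(s) = s^{m_j} G_{X_N + X_1 + … + X_{j-1}}(s)` for `j < N`. -/
noncomputable def w (P : Measure Ω) (X : Fin (n + 1) → Ω → ℤ) (m : Fin (n + 1) → ℤ)
    (j : Fin (n + 1)) (s : ℂ) : ℂ :=
  if j = Fin.last n then s ^ m j
  else s ^ m j * G P (fun ω => X (Fin.last n) ω + ∑ i with i < j, X i ω) s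

/-- The index set of the columns: pairs `(j, c)` with `0 ≤ c ≤ -m_j - 1`. -/
abbrev Col (m : Fin (n + 1) → ℤ) : Type := (j : Fin (n + 1)) × Fin (-(m j)).toNat

/-- `φ_{j,c}(s) = w_j(s) ∑_{r=0}^{-m_j-1-c} s^{r+c} F_{X_j}(m_j + r)`. -/
noncomputable def φ (P : Measure Ω) (X : Fin (n + 1) → Ω → ℤ) (m : Fin (n + 1) → ℤ)
    (a : Col m) (s : ℂ) : ℂ :=
  w P X m a.1 s *
    ∑ r ∈ Finset.range ((-(m a.1)).toNat - a.2), s ^ (r + (a.2 : ℕ)) * (F P (X a.1) (m a.1 + r) : ℂ)

/-- `ν_{j,c} = ∑_{r=0}^{-m_j-1-c} F_{X_j}(m_j + r)`. -/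
noncomputable def ν (P : Measure Ω) (X : Fin (n + 1) → Ω → ℤ) (m : Fin (n + 1) → ℤ)
    (a : Col m) : ℝ :=
  ∑ r ∈ Finset.range ((-(m a.1)).toNat - a.2), F P (X a.1) (m a.1 + r)

/-- The pair `(α, t)` labels a row: `α ∈ {|s| ≤ 1} \ {0, 1}` is a zero of `G_{S_N}(s) - 1`
of multiplicity larger than `t`, i.e. `G_{S_N}(s) - 1 = O((s - α)^{t+1})` as `s → α` in the
closed unit disc (on which `G_{S_N}` is defined).  Note that this forces `G_{S_N}(α) = 1`. -/
def IsRow (P : Measure Ω) (X : Fin (n + 1) → Ω → ℤ) (α : ℂ) (t : ℕ) : Prop :=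
  ‖α‖ ≤ 1 ∧ α ≠ 0 ∧ α ≠ 1 ∧
    (fun s => G P (fun ω => ∑ j, X j ω) s - 1) =O[𝓝[Metric.closedBall 0 1] α]
      (fun s => (s - α) ^ (t + 1))

/-- The index set of the rows: one for each zero `α` of multiplicity `k` and each `t < k`, and a
last one. -/
abbrev Row (P : Measure Ω) (X : Fin (n + 1) → Ω → ℤ) : Type :=
  Option {p : ℂ × ℕ // IsRow P X p.1 p.2}

/-- The matrix `A` of the problem. -/
noncomputable def A (P : Measure Ω) (X : Fin (n + 1) → Ω → ℤ) (m : Fin (n + 1) → ℤ) :
    Matrix (Row P X) (Col m) ℂ := fun p a =>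
  match p with
  | some p => iteratedDeriv p.1.2 (φ P X m a) p.1.1
  | none => (ν P X m a : ℂ)

/-! ### The cyclic reindexing -/

/-- `idx 0` is the last index and `idx k = k - 1` -/
def idx (n : ℕ) (k : ℕ) : Fin (n + 1) := ⟨(k + n) % (n + 1), Nat.mod_lt _ (Nat.succ_pos n)⟩

lemma idx_zero : idx n 0 = Fin.last n := by
  ext; simp [idx]

lemma idx_succ {i : ℕ} (hi : i < n) : (idx n (i + 1) : ℕ) = i := by
  simp only [idx]
  rw [show i + 1 + n = i + (n + 1) by ring, Nat.add_mod_right, Nat.mod_eq_of_lt (by omega)]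

lemma idx_surj (j : Fin (n + 1)) : ∃ k < n + 1, idx n k = j := by
  by_cases h : j = Fin.last n
  · exact ⟨0, by omega, by rw [idx_zero, h]⟩
  · have hj : (j : ℕ) < n := by
      have := j.2
      have h2 : (j : ℕ) ≠ n := fun h3 => h (Fin.ext (by simpa using h3))
      omega
    exact ⟨j + 1, by omega, Fin.ext (idx_succ hj)⟩

lemma sum_idx {E : Type*} [AddCommMonoid E] (f : Fin (n + 1) → E) :
    ∑ k ∈ Finset.range (n + 1), f (idx n k) = ∑ j, f j := by
  rw [Finset.sum_range_succ', Fin.sum_univ_castSucc, idx_zero, Finset.sum_range]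
  congr 1
  refine Finset.sum_congr rfl fun i _ => ?_
  congr 1
  exact Fin.ext (idx_succ i.2)

lemma prod_idx {E : Type*} [CommMonoid E] (f : Fin (n + 1) → E) :
    ∏ k ∈ Finset.range (n + 1), f (idx n k) = ∏ j, f j := by
  rw [Finset.prod_range_succ', Fin.prod_univ_castSucc, idx_zero, Finset.prod_range]
  congr 1
  refine Finset.prod_congr rfl fun i _ => ?_
  congr 1
  exact Fin.ext (idx_succ i.2)

lemma prod_lt {E : Type*} [CommMonoid E] (f : Fin (n + 1) → E) {k : ℕ} (hk : k < n) :
    ∏ i ∈ Finset.range k, f (idx n (i + 1)) = ∏ i with i < idx n (k + 1), f i := by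
  refine Finset.prod_nbij (fun i => idx n (i + 1)) ?_ ?_ ?_ (fun _ _ => rfl)
  · intro i hi
    rw [Finset.mem_range] at hi
    simp only [Finset.mem_filter, Finset.mem_univ, true_and]
    rw [Fin.lt_def, idx_succ (by omega), idx_succ hk]; exact hi
  · intro i hi j hj hij
    simp only [Finset.coe_range, Set.mem_Iio] at hi hj
    have := congrArg (fun x : Fin (n + 1) => (x : ℕ)) hij
    simp only at this
    rwa [idx_succ (by omega), idx_succ (by omega)] at this
  · intro j hj
    simp only [Finset.coe_filter, Finset.mem_univ, true_and, Set.mem_ofPred_eq] at hj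
    rw [Fin.lt_def, idx_succ hk] at hj
    exact ⟨j, by simpa using hj, Fin.ext (idx_succ (by omega))⟩

/-! ### The standing assumptions and the translation -/

open Pool.Agent.R515.RM

section
variable (P : Measure Ω) [IsProbabilityMeasure P] (X : Fin (n + 1) → Ω → ℤ)
  (m : Fin (n + 1) → ℤ)

/-- number of columns of the `k`-th block -/
def MM (m : Fin (n + 1) → ℤ) (k : ℕ) : ℕ := (-(m (idx n k))).toNat

/-- law of `X_j - m_j` -/
noncomputable def qq (k i : ℕ) : ℝ := P.real {ω | X (idx n k) ω = m (idx n k) + i}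

/-- the polynomial of the `k`-th block -/
noncomputable def rr (x : Col m → ℂ) (k : ℕ) : Polynomial ℂ :=
  ∑ c : Fin (MM m k), ∑ r ∈ Finset.range (MM m k - c),
    Polynomial.C (x ⟨idx n k, c⟩ * (F P (X (idx n k)) (m (idx n k) + r) : ℂ)) *
      Polynomial.X ^ (r + (c : ℕ))

lemma rr_eval (x : Col m → ℂ) (k : ℕ) (s : ℂ) :
    (rr P X m x k).eval s = ∑ c : Fin (MM m k), x ⟨idx n k, c⟩ *
      ∑ r ∈ Finset.range (MM m k - c), s ^ (r + (c : ℕ)) *
        (F P (X (idx n k)) (m (idx n k) + r) : ℂ) := by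
  unfold rr
  rw [Polynomial.eval_finsetSum]
  refine Finset.sum_congr rfl fun c _ => ?_
  rw [Polynomial.eval_finsetSum, Finset.mul_sum]
  refine Finset.sum_congr rfl fun r _ => ?_
  simp only [Polynomial.eval_mul, Polynomial.eval_C, Polynomial.eval_pow, Polynomial.eval_X]
  ring

lemma rr_coeff (x : Col m → ℂ) (k e : ℕ) :
    (rr P X m x k).coeff e = ∑ c : Fin (MM m k), ∑ r ∈ Finset.range (MM m k - c),
      if e = r + (c : ℕ) then x ⟨idx n k, c⟩ * (F P (X (idx n k)) (m (idx n k) + r) : ℂ) else 0 := by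
  unfold rr
  rw [Polynomial.finsetSum_coeff]
  refine Finset.sum_congr rfl fun c _ => ?_
  rw [Polynomial.finsetSum_coeff]
  refine Finset.sum_congr rfl fun r _ => ?_
  rw [Polynomial.coeff_C_mul_X_pow]

lemma rr_coeff_zero (x : Col m → ℂ) (k e : ℕ) (he : MM m k ≤ e) :
    (rr P X m x k).coeff e = 0 := by
  rw [rr_coeff]
  refine Finset.sum_eq_zero fun c _ => Finset.sum_eq_zero fun r hr => ?_
  rw [Finset.mem_range] at hr
  rw [if_neg]
  have := c.2
  omega

lemma rr_zero (hpos : ∀ j, 0 < P {ω | X j ω = m j}) (x : Col m → ℂ) (k : ℕ)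
    (h : rr P X m x k = 0) : ∀ c : Fin (MM m k), x ⟨idx n k, c⟩ = 0 := by
  have hF : (F P (X (idx n k)) (m (idx n k) + (0 : ℕ)) : ℂ) ≠ 0 := by
    have h1 : 0 < F P (X (idx n k)) (m (idx n k) + (0 : ℕ)) := by
      unfold F
      have h2 : 0 < P.real {ω | X (idx n k) ω = m (idx n k)} := by
        rw [Measure.real]
        exact ENNReal.toReal_pos (hpos _).ne' (measure_ne_top _ _)
      refine h2.trans_le (measureReal_mono ?_)
      intro ω hω
      simp only [Set.mem_ofPred_eq] at hω ⊢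
      simp [hω]
    exact_mod_cast h1.ne'
  suffices H : ∀ e : ℕ, ∀ he : e < MM m k, x ⟨idx n k, ⟨e, he⟩⟩ = 0 from fun c => H c c.2
  intro e
  induction e using Nat.strong_induction_on with
  | _ e ih =>
    intro he
    have h1 := rr_coeff P X m x k e
    rw [h, Polynomial.coeff_zero] at h1
    have h2 : ∀ c : Fin (MM m k), c ≠ ⟨e, he⟩ → ∑ r ∈ Finset.range (MM m k - c),
      (if e = r + (c : ℕ) then x ⟨idx n k, c⟩ * (F P (X (idx n k)) (m (idx n k) + r) : ℂ) else 0)
        = 0 := by
      intro c hc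
      refine Finset.sum_eq_zero fun r _ => ?_
      split_ifs with h3
      · have h4 : (c : ℕ) < e := by
          have : (c : ℕ) ≠ e := fun h5 => hc (Fin.ext h5)
          omega
        have h5 : x ⟨idx n k, c⟩ = 0 := ih c h4 c.2
        rw [h5, zero_mul]
      · rfl
    rw [Finset.sum_eq_single (⟨e, he⟩ : Fin (MM m k)) (fun c _ hc => h2 c hc) (by simp)] at h1
    rw [Finset.sum_eq_single 0 (by
      intro r _ hr
      rw [if_neg]
      simp only
      omega) (by
      intro h3
      exact absurd (Finset.mem_range.mpr (by simp only; omega)) h3)] at h1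
    simp only [zero_add, if_true] at h1
    rcases mul_eq_zero.mp h1.symm with h3 | h3
    · exact h3
    · exact absurd h3 hF

end

section
variable {P : Measure Ω} [IsProbabilityMeasure P] {X : Fin (n + 1) → Ω → ℤ}
  {m : Fin (n + 1) → ℤ}
  (hmeas : ∀ j, Measurable (X j)) (hind : iIndepFun X P)
  (hm : ∀ j, ∀ᵐ ω ∂P, m j ≤ X j ω) (hm0 : ∀ j, m j ≤ 0)

include hmeas hind hm

lemma G_eq_gf (k : ℕ) {s : ℂ} (hs : ‖s‖ ≤ 1) (hs0 : s ≠ 0) :
    G P (X (idx n k)) s = s ^ (m (idx n k)) * gf (qq P X m k) s :=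
  genFun_eq_gf (hmeas _) (hm _) hs hs0

lemma w_eq {k : ℕ} (hk : k < n + 1) {s : ℂ} (hs : ‖s‖ ≤ 1) (hs0 : s ≠ 0) :
    w P X m (idx n k) s = s ^ (m (idx n k)) * ∏ i ∈ Finset.range k, G P (X (idx n i)) s := by
  unfold w
  rcases k with _ | k
  · simp [idx_zero]
  · have hk' : k < n := by omega
    have h1 : idx n (k + 1) ≠ Fin.last n := by
      intro h
      have := congrArg (fun x : Fin (n + 1) => (x : ℕ)) h
      simp only [Fin.val_last] at this
      rw [idx_succ hk'] at this
      omega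
    rw [if_neg h1, Finset.prod_range_succ', idx_zero, prod_lt (fun i => G P (X i) s) hk']
    have h2 : Fin.last n ∉ (Finset.univ.filter (fun i => i < idx n (k + 1))) := by
      simp only [Finset.mem_filter, Finset.mem_univ, true_and, not_lt]
      exact Fin.le_last _
    have h3 := genFun_sum hmeas hind hm
      (insert (Fin.last n) (Finset.univ.filter (fun i => i < idx n (k + 1)))) hs hs0
    simp only [Finset.sum_insert h2] at h3
    rw [Finset.prod_insert h2] at h3
    have h4 : G P (fun ω => X (Fin.last n) ω + ∑ i with i < idx n (k + 1), X i ω) s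
      = G P (X (Fin.last n)) s * ∏ i with i < idx n (k + 1), G P (X i) s := h3
    rw [h4]; ring

lemma G_all {s : ℂ} (hs : ‖s‖ ≤ 1) (hs0 : s ≠ 0) :
    G P (fun ω => ∑ j, X j ω) s
      = ∏ k ∈ Finset.range (n + 1), (s ^ (m (idx n k)) * gf (qq P X m k) s) := by
  have h := genFun_sum hmeas hind hm Finset.univ hs hs0
  have h2 : G P (fun ω => ∑ j, X j ω) s = ∏ j, G P (X j) s := h
  rw [h2, ← prod_idx]
  exact Finset.prod_congr rfl fun k _ => G_eq_gf hmeas hind hm k hs hs0

include hm0

omit hmeas hind hm in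
omit [IsProbabilityMeasure P] in
lemma MM_cast (k : ℕ) : (MM m k : ℤ) = - m (idx n k) := by
  unfold MM
  rw [Int.toNat_of_nonneg]
  have := hm0 (idx n k)
  omega

lemma E_eq {s : ℂ} (hs : ‖s‖ ≤ 1) (hs0 : s ≠ 0) :
    Efun (n + 1) (MM m) (qq P X m) s
      = s ^ (∑ k ∈ Finset.range (n + 1), MM m k) * (1 - G P (fun ω => ∑ j, X j ω) s) := by
  rw [G_all hmeas hind hm hs hs0, Finset.prod_mul_distrib, mul_sub, mul_one, ← mul_assoc]
  have : s ^ (∑ k ∈ Finset.range (n + 1), MM m k) * ∏ k ∈ Finset.range (n + 1), s ^ (m (idx n k))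
      = 1 := by
    rw [zsum s hs0, ← zpow_natCast, ← zpow_add₀ hs0]
    have : ((∑ k ∈ Finset.range (n + 1), MM m k : ℕ) : ℤ)
        + ∑ k ∈ Finset.range (n + 1), m (idx n k) = 0 := by
      push_cast
      rw [← Finset.sum_add_distrib]
      refine Finset.sum_eq_zero fun k _ => ?_
      rw [MM_cast hm0]; ring
    rw [this, zpow_zero]
  rw [this, one_mul]
  rfl

lemma Psi_eq (x : Col m → ℂ) {s : ℂ} (hs : ‖s‖ ≤ 1) (hs0 : s ≠ 0) :
    Psi (n + 1) (MM m) (qq P X m) (rr P X m x) s
      = s ^ (∑ k ∈ Finset.range (n + 1), MM m k) * ∑ a : Col m, x a * φ P X m a s := by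
  rw [Fintype.sum_sigma, ← sum_idx (fun j => ∑ c : Fin (-(m j)).toNat, x ⟨j, c⟩ * φ P X m ⟨j, c⟩ s),
    Finset.mul_sum]
  unfold Psi
  refine Finset.sum_congr rfl fun k hk => ?_
  have hk' := Finset.mem_range.mp hk
  have h1 : ∑ c : Fin (-(m (idx n k))).toNat, x ⟨idx n k, c⟩ * φ P X m ⟨idx n k, c⟩ s
      = (s ^ (m (idx n k)) * ∏ i ∈ Finset.range k, G P (X (idx n i)) s)
        * (rr P X m x k).eval s := by
    rw [rr_eval, Finset.mul_sum]
    refine Finset.sum_congr rfl fun c _ => ?_
    unfold φ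
    simp only
    rw [w_eq hmeas hind hm hk' hs hs0]
    unfold MM
    ring
  rw [h1]
  have h2 : ∏ i ∈ Finset.range k, G P (X (idx n i)) s
      = s ^ (∑ i ∈ Finset.range k, m (idx n i)) * ∏ i ∈ Finset.range k, gf (qq P X m i) s := by
    rw [← zsum s hs0, ← Finset.prod_mul_distrib]
    exact Finset.prod_congr rfl fun i _ => G_eq_gf hmeas hind hm i hs hs0
  rw [h2]
  have h3 : s ^ (∑ i ∈ Finset.Ico (k + 1) (n + 1), MM m i)
      = s ^ (∑ k ∈ Finset.range (n + 1), MM m k) *
        (s ^ (m (idx n k)) * s ^ (∑ i ∈ Finset.range k, m (idx n i))) := by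
    rw [← zpow_natCast, ← zpow_natCast, ← zpow_add₀ hs0, ← zpow_add₀ hs0]
    congr 1
    have h4 : ∑ k ∈ Finset.range (n + 1), MM m k
        = ∑ i ∈ Finset.range (k + 1), MM m i + ∑ i ∈ Finset.Ico (k + 1) (n + 1), MM m i :=
      (Finset.sum_range_add_sum_Ico _ (by omega)).symm
    rw [h4, Finset.sum_range_succ]
    push_cast
    have h5 : ∑ i ∈ Finset.range k, (MM m i : ℤ) = - ∑ i ∈ Finset.range k, m (idx n i) := by
      rw [← Finset.sum_neg_distrib]
      exact Finset.sum_congr rfl fun i _ => MM_cast hm0 i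
    rw [h5, MM_cast hm0 k]
    ring
  rw [h3]; ring

end

/-- **Main theorem.** Let `X_1, …, X_N` (`N = n + 1`) be independent integer-valued random
variables, `m_j` the least point of the support of `X_j`, `m_j ≤ 0`, `∑ m_j < 0`, and
`E S_N < 0`.  Then the matrix `A` has trivial kernel; it is non-singular (for every
identification of its row and column index sets); and all zeros of `G_{S_N} - 1` on the unit
circle other than `1` are simple (so that no derivative is ever taken on the unit circle). -/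
theorem result {Ω : Type*} [MeasurableSpace Ω] (P : Measure Ω) [IsProbabilityMeasure P] (n : ℕ)
    (X : Fin (n + 1) → Ω → ℤ) (hmeas : ∀ j, Measurable (X j)) (hind : iIndepFun X P)
    (m : Fin (n + 1) → ℤ) (hm : ∀ j, ∀ᵐ ω ∂P, m j ≤ X j ω)
    (hpos : ∀ j, 0 < P {ω | X j ω = m j})
    (hm0 : ∀ j, m j ≤ 0) (hD : ∑ j, m j < 0)
    (hneg : ∫ ω, (∑ j, (X j ω : ℝ)) ∂P < 0) :
    (∀ x : Col m → ℂ, (A P X m).mulVec x = 0 → x = 0) ∧
    (∀ e : Col m ≃ Row P X, ((A P X m).submatrix e id).det ≠ 0) ∧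
    (∀ α t, IsRow P X α t → ‖α‖ = 1 → t = 0) := by
  -- integrability
  have hS : Integrable (fun ω => ∑ j, (X j ω : ℝ)) P := by
    by_contra hcon
    rw [integral_undef hcon] at hneg
    exact lt_irrefl _ hneg
  have hall : ∀ᵐ ω ∂P, ∀ j, m j ≤ X j ω := ae_all_iff.mpr hm
  have hXint : ∀ j, Integrable (fun ω => (X j ω : ℝ)) P := by
    intro j
    have h1 : Integrable (fun ω => ∑ j, (X j ω : ℝ) - ∑ j, (m j : ℝ)) P :=
      hS.sub (integrable_const _)
    have hmj : Measurable (fun ω => (X j ω : ℝ)) :=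
      (measurable_of_countable (fun k : ℤ => (k : ℝ))).comp (hmeas j)
    have h2 : Integrable (fun ω => (X j ω : ℝ) - (m j : ℝ)) P := by
      refine h1.mono' (hmj.sub measurable_const).aestronglyMeasurable ?_
      filter_upwards [hall] with ω hω
      have h3 : ∀ i, (0 : ℝ) ≤ (X i ω : ℝ) - (m i : ℝ) := by
        intro i
        have := hω i
        have h4 : (m i : ℝ) ≤ (X i ω : ℝ) := by exact_mod_cast this
        linarith
      rw [Real.norm_of_nonneg (h3 j), ← Finset.sum_sub_distrib]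
      exact Finset.single_le_sum (f := fun i => (X i ω : ℝ) - (m i : ℝ)) (fun i _ => h3 i)
        (Finset.mem_univ j)
    have h5 := h2.add (integrable_const (m j : ℝ))
    refine h5.congr (Filter.Eventually.of_forall fun ω => ?_)
    simp
  -- the data of the analytic theorem
  have hq : ∀ k < n + 1, ∀ i, 0 ≤ qq P X m k i := fun k _ i => measureReal_nonneg
  have hq1 : ∀ k < n + 1, HasSum (qq P X m k) 1 := fun k _ => law_hasSum_one (hmeas _) (hm _)
  have hmean : ∀ k, HasSum (fun i : ℕ => (i : ℝ) * qq P X m k i)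
      (∫ ω, (X (idx n k) ω : ℝ) ∂P - m (idx n k)) :=
    fun k => law_hasSum_mean (hmeas _) (hm _) (hXint _)
  have hq2 : ∀ k < n + 1, Summable (fun i : ℕ => (i : ℝ) * qq P X m k i) :=
    fun k _ => (hmean k).summable
  have hq0 : ∀ k < n + 1, 0 < qq P X m k 0 := by
    intro k _
    unfold qq
    simp only [Nat.cast_zero, add_zero]
    rw [Measure.real]
    exact ENNReal.toReal_pos (hpos _).ne' (measure_ne_top _ _)
  have hMsum : ((∑ k ∈ Finset.range (n + 1), MM m k : ℕ) : ℤ) = - ∑ j, m j := by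
    rw [← sum_idx, ← Finset.sum_neg_distrib]
    push_cast
    exact Finset.sum_congr rfl fun k _ => MM_cast hm0 k
  have hM : 0 < ∑ k ∈ Finset.range (n + 1), MM m k := by
    have : (0 : ℤ) < ((∑ k ∈ Finset.range (n + 1), MM m k : ℕ) : ℤ) := by rw [hMsum]; omega
    exact_mod_cast this
  have hdrift : ∑ k ∈ Finset.range (n + 1), ∑' i : ℕ, (i : ℝ) * qq P X m k i
      < ∑ k ∈ Finset.range (n + 1), (MM m k : ℝ) := by
    have h1 : ∑ k ∈ Finset.range (n + 1), ∑' i : ℕ, (i : ℝ) * qq P X m k i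
        = ∑ j, (∫ ω, (X j ω : ℝ) ∂P - m j) := by
      rw [← sum_idx (fun j => ∫ ω, (X j ω : ℝ) ∂P - (m j : ℝ))]
      exact Finset.sum_congr rfl fun k _ => (hmean k).tsum_eq
    have h2 : ∑ k ∈ Finset.range (n + 1), (MM m k : ℝ) = - ∑ j, (m j : ℝ) := by
      have := congrArg (fun z : ℤ => (z : ℝ)) hMsum
      push_cast at this
      exact this
    rw [h1, h2, Finset.sum_sub_distrib]
    rw [integral_finsetSum _ (fun j _ => hXint j)] at hneg
    linarith
  have hEd := Efun_diffOn hq hq1 hq2 (M := MM m)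
  have hEa : AnalyticOnNhd ℂ (Efun (n + 1) (MM m) (qq P X m)) (Metric.ball 0 1) :=
    (hEd.mono Metric.ball_subset_closedBall).analyticOnNhd Metric.isOpen_ball
  set K := ∑ k ∈ Finset.range (n + 1), MM m k with hK
  have hE0 : Efun (n + 1) (MM m) (qq P X m) 0 ≠ 0 := by
    unfold Efun
    rw [← hK, zero_pow (by omega), zero_sub, neg_ne_zero]
    apply Finset.prod_ne_zero_iff.mpr
    intro k hk
    have hk' := Finset.mem_range.mp hk
    have : gf (qq P X m k) 0 = (qq P X m k 0 : ℂ) := by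
      unfold gf
      rw [tsum_eq_single 0]
      · simp
      · intro i hi; simp [hi]
    rw [this]
    exact_mod_cast (hq0 k hk').ne'
  -- `G - 1` in terms of `E`
  have hGE : ∀ s : ℂ, ‖s‖ ≤ 1 → s ≠ 0 → G P (fun ω => ∑ j, X j ω) s - 1
      = - (s ^ K)⁻¹ * Efun (n + 1) (MM m) (qq P X m) s := by
    intro s hs hs0
    rw [E_eq hmeas hind hm hm0 hs hs0, ← hK]
    have : s ^ K ≠ 0 := pow_ne_zero _ hs0
    field_simp
    ring
  -- rows from `E`
  have hrow : ∀ z : ℂ, ‖z‖ ≤ 1 → z ≠ 0 → z ≠ 1 → ∀ t : ℕ,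
      (Efun (n + 1) (MM m) (qq P X m)) =O[𝓝[Metric.closedBall 0 1] z] (fun s => (s - z) ^ (t + 1)) →
      IsRow P X z t := by
    intro z hz hz0 hz1 t hO
    refine ⟨hz, hz0, hz1, ?_⟩
    have h1 : (fun s : ℂ => - (s ^ K)⁻¹) =O[𝓝[Metric.closedBall 0 1] z] (fun _ => (1 : ℂ)) := by
      have : ContinuousAt (fun s : ℂ => - (s ^ K)⁻¹) z := by
        have hc : ContinuousAt (fun s : ℂ => s ^ K) z := by fun_prop
        exact (hc.inv₀ (pow_ne_zero _ hz0)).neg
      exact (this.tendsto.mono_left nhdsWithin_le_nhds).isBigO_one ℂ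
    have h2 := h1.mul hO
    simp only [one_mul] at h2
    refine h2.congr' ?_ (Filter.EventuallyEq.refl _ _)
    have h3 : ∀ᶠ s in 𝓝[Metric.closedBall 0 1] z, s ≠ 0 :=
      nhdsWithin_le_nhds (isOpen_ne.mem_nhds hz0)
    filter_upwards [self_mem_nhdsWithin, h3] with s hs hs0
    rw [mem_closedBall_zero_iff] at hs
    exact (hGE s hs hs0).symm
  -- the kernel
  have hker : ∀ x : Col m → ℂ, (A P X m).mulVec x = 0 → x = 0 := by
    intro x hx
    have hxrow : ∀ α t, IsRow P X α t → ∑ a, x a * iteratedDeriv t (φ P X m a) α = 0 := by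
      intro α t h
      have := congrFun hx (some ⟨(α, t), h⟩)
      simp only [Matrix.mulVec, dotProduct, Pi.zero_apply] at this
      rw [← this]
      exact Finset.sum_congr rfl fun a _ => by simp only [A]; ring
    have hxlast : ∑ a, x a * (ν P X m a : ℂ) = 0 := by
      have := congrFun hx none
      simp only [Matrix.mulVec, dotProduct, Pi.zero_apply] at this
      rw [← this]
      exact Finset.sum_congr rfl fun a _ => by simp only [A]; ring
    -- analyticity of linear combinations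
    have hanal : ∀ y : Col m → ℂ, ∀ z : ℂ, ‖z‖ < 1 → z ≠ 0 →
        AnalyticAt ℂ (fun s => ∑ a, y a * φ P X m a s) z := by
      intro y z hz hz0
      have hΨd := Psi_diffOn hq hq1 hq2 (M := MM m) (rr P X m y)
      have hΨa : AnalyticAt ℂ (Psi (n + 1) (MM m) (qq P X m) (rr P X m y)) z :=
        (hΨd.mono Metric.ball_subset_closedBall).analyticOnNhd Metric.isOpen_ball z (by simpa using hz)
      have h1 : AnalyticAt ℂ (fun s => (s ^ K)⁻¹ * Psi (n + 1) (MM m) (qq P X m) (rr P X m y) s) z := by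
        have hc : AnalyticAt ℂ (fun s : ℂ => s ^ K) z := by fun_prop
        exact (hc.inv (pow_ne_zero _ hz0)).mul hΨa
      refine h1.congr ?_
      have h2 : ∀ᶠ s in 𝓝 z, s ∈ Metric.ball (0:ℂ) 1 :=
        Metric.isOpen_ball.mem_nhds (by simpa using hz)
      filter_upwards [h2, isOpen_ne.mem_nhds hz0] with s hs hs0
      have hs' : ‖s‖ ≤ 1 := by
        rw [mem_ball_zero_iff] at hs; exact hs.le
      rw [Psi_eq hmeas hind hm hm0 y hs' hs0, ← hK, ← mul_assoc,
        inv_mul_cancel₀ (pow_ne_zero _ hs0), one_mul]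
    have hφan : ∀ a, ∀ z : ℂ, ‖z‖ < 1 → z ≠ 0 → AnalyticAt ℂ (φ P X m a) z := by
      classical
      intro a z hz hz0
      have := hanal (Pi.single a 1) z hz hz0
      refine this.congr (Filter.Eventually.of_forall fun s => ?_)
      simp [Pi.single_apply]
    have hkern := analytic_kernel hq hq1 hq2 hq0 hM hdrift (rr P X m x)
      (fun k _ i hi => rr_coeff_zero P X m x k i hi) ?_ ?_
    · -- conclude `x = 0`
      funext ⟨j, c⟩
      obtain ⟨k, hk, rfl⟩ := idx_surj j
      exact rr_zero P X m hpos x k (hkern k hk) c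
    · -- interior zeros
      intro z hz
      by_cases hEz : Efun (n + 1) (MM m) (qq P X m) z = 0
      swap
      · rw [(hEa z (by simpa using hz)).analyticOrderAt_eq_zero.mpr hEz]
        exact zero_le
      have hz0 : z ≠ 0 := by
        rintro rfl; exact hE0 hEz
      have hz1 : z ≠ 1 := by
        rintro rfl; simp at hz
      have hzb : z ∈ Metric.ball (0:ℂ) 1 := by simpa using hz
      have hΦan := hanal x z hz hz0
      have hord : analyticOrderAt (Psi (n + 1) (MM m) (qq P X m) (rr P X m x)) z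
          = analyticOrderAt (fun s => ∑ a, x a * φ P X m a s) z := by
        have h1 : Psi (n + 1) (MM m) (qq P X m) (rr P X m x) =ᶠ[𝓝 z]
            ((fun s => s ^ K) * (fun s => ∑ a, x a * φ P X m a s)) := by
          have h2 : ∀ᶠ s in 𝓝 z, s ∈ Metric.ball (0:ℂ) 1 := Metric.isOpen_ball.mem_nhds hzb
          filter_upwards [h2, isOpen_ne.mem_nhds hz0] with s hs hs0
          have hs' : ‖s‖ ≤ 1 := by
            rw [mem_ball_zero_iff] at hs; exact hs.le
          rw [Psi_eq hmeas hind hm hm0 x hs' hs0, ← hK]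
          rfl
        rw [analyticOrderAt_congr h1, analyticOrderAt_mul (by fun_prop) hΦan]
        have h3 : analyticOrderAt (fun s : ℂ => s ^ K) z = 0 := by
          rw [AnalyticAt.analyticOrderAt_eq_zero (by fun_prop)]
          exact pow_ne_zero _ hz0
        rw [h3, zero_add]
      rw [hord]
      refine ENat.forall_natCast_le_iff_le.mp fun N hN => ?_
      rw [natCast_le_analyticOrderAt_iff_iteratedDeriv_eq_zero hΦan]
      intro t ht
      have hrowt : IsRow P X z t := by
        apply hrow z hz.le hz0 hz1 t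
        have h4 : ((t + 1 : ℕ) : ℕ∞) ≤ analyticOrderAt (Efun (n + 1) (MM m) (qq P X m)) z :=
          le_trans (by exact_mod_cast ht) hN
        obtain ⟨g, hg, hgE⟩ := (natCast_le_analyticOrderAt (hEa z hzb)).mp h4
        have h5 : (fun s => (s - z) ^ (t + 1) • g s) =O[𝓝 z] (fun s => (s - z) ^ (t + 1)) := by
          have := (isBigO_refl (fun s : ℂ => (s - z) ^ (t + 1)) (𝓝 z)).mul
            (hg.continuousAt.tendsto.isBigO_one ℂ)
          simpa using this
        exact ((h5.congr' (hgE.mono fun s hs => hs.symm) (Filter.EventuallyEq.refl _ _)).mono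
          nhdsWithin_le_nhds)
      have h6 := hxrow z t hrowt
      rw [iteratedDeriv_fun_sum]
      · rw [← h6]
        refine Finset.sum_congr rfl fun a _ => ?_
        exact iteratedDeriv_const_mul _ (hφan a z hz hz0).contDiffAt
      · intro a _
        exact (analyticAt_const.mul (hφan a z hz hz0)).contDiffAt
    · -- boundary zeros
      intro z hz hEz
      have hz0 : z ≠ 0 := by
        rintro rfl; simp at hz
      rw [Psi_eq hmeas hind hm hm0 x hz.le hz0]
      by_cases hz1 : z = 1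
      · subst hz1
        have hw1 : ∀ j, w P X m j 1 = 1 := by
          intro j
          obtain ⟨k, hk, rfl⟩ := idx_surj j
          rw [w_eq hmeas hind hm hk (by simp) one_ne_zero, one_zpow, one_mul]
          refine Finset.prod_eq_one fun i hi => ?_
          have hi' := Finset.mem_range.mp hi
          rw [G_eq_gf hmeas hind hm i (by simp) one_ne_zero, one_zpow, one_mul,
            gf_one (hq i (by omega)) (hq1 i (by omega))]
        have h2 : ∑ a, x a * φ P X m a 1 = ∑ a, x a * (ν P X m a : ℂ) := by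
          refine Finset.sum_congr rfl fun a _ => ?_
          congr 1
          unfold φ ν
          rw [hw1, one_mul]
          push_cast
          exact Finset.sum_congr rfl fun r _ => by rw [one_pow, one_mul]
        rw [h2, hxlast, mul_zero]
      · have hrow0 : IsRow P X z 0 := by
          apply hrow z hz.le hz0 hz1 0
          have h1 := (hEd z (by simp [hz])).hasDerivWithinAt.isBigO_sub
          obtain ⟨C, hC⟩ := h1.bound
          rw [Filter.prod_pure, eventually_map] at hC
          apply IsBigO.of_bound C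
          filter_upwards [hC] with s hs
          rw [hEz, sub_zero] at hs
          simpa using hs
        have h2 := hxrow z 0 hrow0
        simp only [iteratedDeriv_zero] at h2
        rw [h2, mul_zero]
  refine ⟨hker, ?_, ?_⟩
  · intro e hdet
    classical
    obtain ⟨v, hv, hv0⟩ := Matrix.exists_mulVec_eq_zero_iff.mpr hdet
    apply hv
    apply hker
    funext p
    have := congrFun hv0 (e.symm p)
    simpa [Matrix.mulVec, dotProduct] using this
  · intro α t hrowt hα
    by_contra ht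
    obtain ⟨-, hα0, hα1, hO⟩ := hrowt
    have hαc : α ∈ Metric.closedBall (0:ℂ) 1 := by simp [hα]
    obtain ⟨C, hC⟩ := hO.bound
    have hG : G P (fun ω => ∑ j, X j ω) α - 1 = 0 := by
      have := hC.self_of_nhdsWithin hαc
      rw [sub_self, zero_pow (by omega), norm_zero, mul_zero] at this
      exact norm_le_zero_iff.mp this
    have hEα : Efun (n + 1) (MM m) (qq P X m) α = 0 := by
      rw [hGE α hα.le hα0] at hG
      rcases mul_eq_zero.mp hG with h | h
      · exact absurd h (neg_ne_zero.mpr (inv_ne_zero (pow_ne_zero _ hα0)))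
      · exact h
    obtain ⟨c, hc, hlow⟩ := Efun_lower hq hq1 hq2 hdrift hα hEα
    have hbig : ∀ᶠ s in 𝓝[Metric.closedBall 0 1] α, c * ‖s - α‖ ≤ C * ‖s - α‖ ^ (t + 1) := by
      have h3 : ∀ᶠ s in 𝓝[Metric.closedBall 0 1] α, s ≠ 0 :=
        nhdsWithin_le_nhds (isOpen_ne.mem_nhds hα0)
      filter_upwards [hC, hlow, self_mem_nhdsWithin, h3] with s h1 h2 hs hs0
      rw [mem_closedBall_zero_iff] at hs
      have h4 := hGE s hs hs0
      have h5 : ‖Efun (n + 1) (MM m) (qq P X m) s‖ = ‖s ^ K‖ * ‖G P (fun ω => ∑ j, X j ω) s - 1‖ := by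
        rw [h4, norm_mul, norm_neg, norm_inv]
        have : ‖s ^ K‖ ≠ 0 := norm_ne_zero_iff.mpr (pow_ne_zero _ hs0)
        field_simp
      have h6 : ‖s ^ K‖ ≤ 1 := by
        rw [norm_pow]; exact pow_le_one₀ (norm_nonneg _) hs
      rw [norm_pow] at h1
      calc c * ‖s - α‖ ≤ ‖Efun (n + 1) (MM m) (qq P X m) s‖ := h2
        _ ≤ 1 * ‖G P (fun ω => ∑ j, X j ω) s - 1‖ := by
            rw [h5]; exact mul_le_mul_of_nonneg_right h6 (norm_nonneg _)
        _ ≤ C * ‖s - α‖ ^ (t + 1) := by rw [one_mul]; exact h1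
    have htend : Tendsto (fun ε : ℝ => ((1 - ε : ℝ) : ℂ) * α) (𝓝[>] 0)
        (𝓝[Metric.closedBall 0 1] α) := by
      apply tendsto_nhdsWithin_of_tendsto_nhds_of_eventually_within
      · have hcont : Continuous (fun ε : ℝ => ((1 - ε : ℝ) : ℂ) * α) := by fun_prop
        have := hcont.tendsto 0
        simp only [sub_zero, Complex.ofReal_one, one_mul] at this
        exact this.mono_left nhdsWithin_le_nhds
      · have h7 : ∀ᶠ ε : ℝ in 𝓝[>] 0, ε < 1 := nhdsWithin_le_nhds (gt_mem_nhds one_pos)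
        filter_upwards [self_mem_nhdsWithin, h7] with ε hε hε1
        rw [mem_closedBall_zero_iff, norm_mul, hα, mul_one, Complex.norm_real,
          Real.norm_of_nonneg (by linarith)]
        have : (0:ℝ) < ε := hε
        linarith
    have hev := htend.eventually hbig
    have hfin : ∀ᶠ ε : ℝ in 𝓝[>] 0, c ≤ C * ε ^ t := by
      filter_upwards [hev, self_mem_nhdsWithin] with ε h1 hε
      have hε' : (0:ℝ) < ε := hε
      have h8 : ‖((1 - ε : ℝ) : ℂ) * α - α‖ = ε := by
        rw [show ((1 - ε : ℝ) : ℂ) * α - α = -((ε : ℝ) : ℂ) * α by push_cast; ring, norm_mul, hα,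
          mul_one, norm_neg, Complex.norm_real, Real.norm_of_nonneg hε'.le]
      rw [h8, pow_succ, ← mul_assoc] at h1
      exact le_of_mul_le_mul_right h1 hε'
    have hlim : Tendsto (fun ε : ℝ => C * ε ^ t) (𝓝[>] 0) (𝓝 0) := by
      have hcont : Continuous (fun ε : ℝ => C * ε ^ t) := by fun_prop
      have := hcont.tendsto 0
      rw [zero_pow ht, mul_zero] at this
      exact this.mono_left nhdsWithin_le_nhds
    have := ge_of_tendsto hlim hfin
    linarith

end Pool.Agent.Results.MP_432bca_pr.NonSingular
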